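import Mathlib
import Pool.Agent.H65.Exp3

set_option autoImplicit false

namespace Pool.Agent.Results.MP_5904a2_co.Unbounded

open Pool.Agent.H65.Exp

theorem result (k : ℝ) : ∃ (V : Type) (_ : Finite V) (G : SimpleGraph V) (v : V),
    G.Connected ∧ k < (fp G v : ℝ) / (fd G v : ℝ) :=
  main k

end Pool.Agent.Results.MP_5904a2_co.Unbounded
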